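import Pool.Agent.W2helper5.QD.Stm

/-!
# Project QD, piece CN
-/

set_option autoImplicit false

namespace Pool.Agent.W2helper19.QD

open MeasureTheory Set Pool.V11275.Quad Pool.Agent.Helper717.Hull1 Pool.Agent.Helper717.Hull2
open Pool.Agent.W2helper5.QD

lemma key (X u v n p : E2) :
    (dot n p - dot n X) * cr u v = cr (p - X) v * dot n u + cr u (p - X) * dot n v := by
  simp only [dot, cr, PiLp.sub_apply]
  ring

lemma or1 (X u v p : E2) (s t : ℝ) : orient X (X + s • u) p = s * cr u (p - X) := by
  simp only [orient, cr, PiLp.sub_apply, PiLp.add_apply, PiLp.smul_apply, smul_eq_mul]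
  ring

lemma or2 (X v p : E2) (t : ℝ) : orient (X + t • v) X p = t * cr (p - X) v := by
  simp only [orient, cr, PiLp.sub_apply, PiLp.add_apply, PiLp.smul_apply, smul_eq_mul]
  ring

lemma or3 (X u v : E2) (s t : ℝ) : orient X (X + s • u) (X + t • v) = s * t * cr u v := by
  simp only [orient, cr, PiLp.add_apply, PiLp.smul_apply, smul_eq_mul]
  ring

/-- The data of the triangle. -/
lemma tri_data (X u v n : E2) (c : ℝ) (h : 0 < cr u v) (hu : 0 < dot n u) (hv : 0 < dot n v)
    (hD : 0 < c - dot n X) :
    0 < orient X (X + ((c - dot n X) / dot n u) • u) (X + ((c - dot n X) / dot n v) • v) ∧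
    orient X (X + ((c - dot n X) / dot n u) • u) (X + ((c - dot n X) / dot n v) • v) / 2 =
      (c - dot n X) ^ 2 * cr u v / (2 * dot n u * dot n v) ∧
    ∀ p, p ∈ convexHull ℝ {X, X + ((c - dot n X) / dot n u) • u,
      X + ((c - dot n X) / dot n v) • v} ↔
      0 ≤ cr u (p - X) ∧ 0 ≤ cr (p - X) v ∧ dot n p ≤ c := by
  set D := c - dot n X with hDd
  have hor : orient X (X + (D / dot n u) • u) (X + (D / dot n v) • v) =
      D ^ 2 * cr u v / (dot n u * dot n v) := by
    rw [or3]
    field_simp
  have hpos : 0 < orient X (X + (D / dot n u) • u) (X + (D / dot n v) • v) := by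
    rw [hor]
    positivity
  refine ⟨hpos, ?_, ?_⟩
  · rw [hor]
    field_simp
  · intro p
    rw [tri_iff _ _ _ _ hpos]
    have h1 := or1 X u v p (D / dot n u) 0
    have h2 := or2 X v p (D / dot n v)
    have h3 : orient (X + (D / dot n u) • u) (X + (D / dot n v) • v) p =
        D * cr u v / (dot n u * dot n v) * (c - dot n p) := by
      have h4 := or_sum X (X + (D / dot n u) • u) (X + (D / dot n v) • v) p
      rw [h1, h2, hor] at h4
      have h5 := key X u v n p
      have h6 : orient (X + (D / dot n u) • u) (X + (D / dot n v) • v) p =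
          D ^ 2 * cr u v / (dot n u * dot n v) - D / dot n u * cr u (p - X) -
            D / dot n v * cr (p - X) v := by linarith
      rw [h6]
      have h7 : c = D + dot n X := by rw [hDd]; ring
      rw [h7]
      field_simp
      linear_combination h5
    rw [h1, h2, h3]
    have hs : 0 < D / dot n u := by positivity
    have ht : 0 < D / dot n v := by positivity
    have hr : 0 < D * cr u v / (dot n u * dot n v) := by positivity
    constructor
    · rintro ⟨a, b, d⟩
      refine ⟨nonneg_of_mul_nonneg_right a hs, nonneg_of_mul_nonneg_right d ht, ?_⟩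
      have := nonneg_of_mul_nonneg_right b hr
      linarith
    · rintro ⟨a, b, d⟩
      exact ⟨mul_nonneg hs.le a, mul_nonneg hr.le (by linarith), mul_nonneg ht.le b⟩

lemma mu_real (R : Set E2) (hR : Body R) (S : Set E2) : (mu R).real S = (volume (S ∩ R)).toReal := by
  unfold mu Measure.real
  rw [Measure.restrict_apply' hR.comp.isClosed.measurableSet]

lemma n_ne {n u : E2} (h : 0 < dot n u) : n ≠ 0 := by
  intro h0
  rw [h0] at h
  simp [dot] at h

theorem CNU : P_CNU := by
  intro R hR S X u v n c h hu hv hS
  rw [mu_real R hR S]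
  have hge : ∀ p ∈ S, p ∈ R → dot n X ≤ dot n p := by
    intro p hp hpR
    obtain ⟨h1, h2, -⟩ := hS p hp hpR
    have h3 := key X u v n p
    have h4 : 0 ≤ (dot n p - dot n X) * cr u v := by
      rw [h3]
      positivity
    have h5 := nonneg_of_mul_nonneg_left h4 h
    linarith
  rcases lt_trichotomy 0 (c - dot n X) with hD | hD | hD
  · obtain ⟨hpos, hval, hmem⟩ := tri_data X u v n c h hu hv hD
    have hsub : S ∩ R ⊆ convexHull ℝ {X, X + ((c - dot n X) / dot n u) • u,
        X + ((c - dot n X) / dot n v) • v} := by
      rintro p ⟨hp, hpR⟩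
      exact (hmem p).2 (hS p hp hpR)
    rw [max_eq_right hD.le, ← hval]
    have h1 := measure_mono (μ := volume) hsub
    rw [tri_vol_pos _ _ _ hpos] at h1
    exact ENNReal.toReal_le_of_le_ofReal (by positivity) h1
  · have hsub : S ∩ R ⊆ {x : E2 | dot n x = c} := by
      rintro p ⟨hp, hpR⟩
      have h1 := hge p hp hpR
      have h2 := (hS p hp hpR).2.2
      show dot n p = c
      linarith
    have h1 : volume (S ∩ R) = 0 := measure_mono_null hsub (null_level n (n_ne hu) c)
    rw [h1, ENNReal.toReal_zero]
    positivity
  · have hsub : S ∩ R = ∅ := by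
      ext p
      simp only [mem_inter_iff, mem_empty_iff_false, iff_false]
      rintro ⟨hp, hpR⟩
      have h1 := hge p hp hpR
      have h2 := (hS p hp hpR).2.2
      linarith
    rw [hsub, measure_empty, ENNReal.toReal_zero]
    positivity

theorem CNL : P_CNL := by
  intro R hR S X u v n c h hu hv hD hX hB hC hS
  rw [mu_real R hR S]
  rcases hD.eq_or_lt with hD | hD
  · rw [← hD]
    simp
  · obtain ⟨hpos, hval, hmem⟩ := tri_data X u v n c h hu hv hD
    set T := convexHull ℝ {X, X + ((c - dot n X) / dot n u) • u,
        X + ((c - dot n X) / dot n v) • v} with hT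
    have hTR : T ⊆ R := by
      apply convexHull_min _ hR.conv
      intro p hp
      simp only [mem_insert_iff, mem_singleton_iff] at hp
      rcases hp with rfl | rfl | rfl
      · exact hX
      · exact hB
      · exact hC
    have hu0 : u ≠ 0 := by
      intro h0
      rw [h0] at hu
      simp [dot] at hu
    have hv0 : v ≠ 0 := by
      intro h0
      rw [h0] at hv
      simp [dot] at hv
    have n1 : volume {p : E2 | cr u (p - X) = 0} = 0 := by
      have h1 := line_null X (X + u) (by
        intro h0
        apply hu0
        simpa using h0.symm)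
      refine measure_mono_null ?_ h1
      intro p hp
      have h2 := or1 X u v p 1 0
      rw [one_smul, one_mul] at h2
      show orient X (X + u) p = 0
      rw [h2]
      exact hp
    have n2 : volume {p : E2 | cr (p - X) v = 0} = 0 := by
      have h1 := line_null (X + v) X (by
        intro h0
        apply hv0
        simpa using h0)
      refine measure_mono_null ?_ h1
      intro p hp
      have h2 := or2 X v p 1
      rw [one_smul, one_mul] at h2
      show orient (X + v) X p = 0
      rw [h2]
      exact hp
    have n3 : volume {p : E2 | dot n p = c} = 0 := null_level n (n_ne hu) c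
    have hsub : T ⊆ (S ∩ R) ∪ ({p : E2 | cr u (p - X) = 0} ∪ ({p : E2 | cr (p - X) v = 0} ∪
        {p : E2 | dot n p = c})) := by
      intro p hp
      obtain ⟨h1, h2, h3⟩ := (hmem p).1 hp
      rcases h1.eq_or_lt with h1 | h1
      · right; left
        exact h1.symm
      rcases h2.eq_or_lt with h2 | h2
      · right; right; left
        exact h2.symm
      rcases h3.eq_or_lt with h3 | h3
      · right; right; right
        exact h3
      left
      exact ⟨hS p h1 h2 h3, hTR hp⟩
    have h1 : volume T ≤ volume (S ∩ R) := by
      refine (measure_mono hsub).trans ((measure_union_le _ _).trans ?_)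
      have h2 : volume ({p : E2 | cr u (p - X) = 0} ∪ ({p : E2 | cr (p - X) v = 0} ∪
          {p : E2 | dot n p = c})) = 0 := measure_union_null n1 (measure_union_null n2 n3)
      rw [h2, add_zero]
    rw [tri_vol_pos _ _ _ hpos, hval] at h1
    have hfin : volume (S ∩ R) ≠ ⊤ := by
      have h2 : volume R < ⊤ := hR.comp.measure_lt_top
      exact ne_top_of_le_ne_top h2.ne (measure_mono inter_subset_right)
    exact (ENNReal.ofReal_le_iff_le_toReal hfin).1 h1

theorem CN : P_CNU ∧ P_CNL := ⟨CNU, CNL⟩

end Pool.Agent.W2helper19.QD
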